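import Pool.Agent.X109.LY.Words

/-!
# Minimal sets through pairs of open sets
-/

set_option autoImplicit false

open Filter Topology Set

namespace X109.LY

noncomputable local instance instBoolMetric'' : MetricSpace (ℕ → Bool) := PiNat.metricSpace

/-- A minimal set of a map: nonempty, closed, forward invariant, with no proper such subset. -/
def IsMinimalSet {X : Type} [TopologicalSpace X] (T : X → X) (M : Set X) : Prop :=
  M.Nonempty ∧ IsClosed M ∧ (∀ x ∈ M, T x ∈ M) ∧
    ∀ N : Set X, N ⊆ M → N.Nonempty → IsClosed N → (∀ x ∈ N, T x ∈ N) → N = M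

section

variable (u : Bool → ℕ → Bool) (z : Bool → ℤ_[2]) (L V M : ℕ)

/-- All points that follow the pattern `Y`. -/
def MY : Set XX := {q | ∀ n : ℕ, q.1.1 n = true ↔ Y u z L M (q.1.2 + n)}

theorem isClosed_MY : IsClosed (MY u z L M) := by
  refine isClosed_of_closure_subset fun q hq => ?_
  rw [mem_closure_iff_nhds] at hq
  intro n
  obtain ⟨q', hq', hM⟩ := hq _ (nbhd_mem q (n + 1) M)
  have h1 : q'.1.1 n = q.1.1 n := hq'.1 n (by omega)
  rw [← h1, hM n]
  apply Y_congr
  have e : q'.1.2 + n - (q.1.2 + n) = q'.1.2 - q.1.2 := by ring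
  rw [e]; exact hq'.2

theorem MY_inv : ∀ x ∈ MY u z L M, T x ∈ MY u z L M := by
  intro x hx n
  have h := hx (n + 1)
  show x.1.1 (n + 1) = true ↔ Y u z L M (x.1.2 + 1 + n)
  rw [h]
  have e : x.1.2 + ((n + 1 : ℕ) : ℤ_[2]) = x.1.2 + 1 + n := by push_cast; ring
  rw [e]

theorem iter_mem {N : Set XX} (hN : ∀ x ∈ N, T x ∈ N) {x : XX} (hx : x ∈ N) (m : ℕ) :
    T^[m] x ∈ N := by
  induction m with
  | zero => exact hx
  | succ m ih => rw [Function.iterate_succ_apply']; exact hN _ ih

/-- Two points following the pattern with phases equal modulo `2^M` and `2^K` are close. -/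
theorem close_of_MY {q q' : XX} (hq : q ∈ MY u z L M) (hq' : q' ∈ MY u z L M) (A K : ℕ)
    (h : (2 : ℤ_[2]) ^ (max M K) ∣ q'.1.2 - q.1.2) : Cl A K q' q := by
  refine ⟨fun n _ => ?_, (pow_dvd_pow _ (le_max_right M K)).trans h⟩
  have h1 : Y u z L M (q'.1.2 + n) ↔ Y u z L M (q.1.2 + n) := by
    apply Y_congr
    have e : q'.1.2 + n - (q.1.2 + n) = q'.1.2 - q.1.2 := by ring
    rw [e]; exact (pow_dvd_pow _ (le_max_left M K)).trans h
  have h2 : q'.1.1 n = true ↔ q.1.1 n = true := by rw [hq' n, hq n, h1]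
  exact Bool.eq_iff_iff.2 h2

theorem MY_minimal (hne : (MY u z L M).Nonempty) : IsMinimalSet T (MY u z L M) := by
  refine ⟨hne, isClosed_MY u z L M, MY_inv u z L M, ?_⟩
  intro N hN hNe hNc hNi
  refine Subset.antisymm hN fun q hq => ?_
  obtain ⟨q0, hq0⟩ := hNe
  rw [← hNc.closure_eq, mem_closure_iff_nhds]
  intro U hU
  obtain ⟨A, K, hAK⟩ := nbhd q U hU
  obtain ⟨m, _, hm⟩ := exists_nat (max M K) (q.1.2 - q0.1.2)
  refine ⟨T^[m] q0, hAK _ ?_, iter_mem hNi hq0 m⟩
  apply close_of_MY u z L M hq (hN (iter_mem hNi hq0 m))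
  rw [T_iter]
  show (2 : ℤ_[2]) ^ (max M K) ∣ q0.1.2 + m - q.1.2
  have e : q0.1.2 + m - q.1.2 = -(q.1.2 - q0.1.2 - m) := by ring
  rw [e]; exact dvd_neg.2 hm

end

/-- For any two points there is a minimal set through points close to them; moreover some
point of it close to the first one visits the neighbourhood of the second one at a time
`m ≥ 1`. -/
theorem pair (p q : XX) (L K : ℕ) : ∃ M : Set XX, IsMinimalSet T M ∧ ∃ p' ∈ M, Cl L K p' p ∧
    ∃ m : ℕ, 1 ≤ m ∧ Cl L K (T^[m] p') q := by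
  classical
  obtain ⟨z0, V0, hz0, hW0⟩ := exists_word p L K
  obtain ⟨z1, V1, hz1, hW1⟩ := exists_word q L K
  set V := max V0 V1 with hV
  obtain ⟨t, M, hR, hN, hsep⟩ := exists_sep z0 z1 (L + V) (max V K)
  set N := max V K with hNdef
  set z1' : ℤ_[2] := z1 + 2 ^ N * t with hz1'
  have hd : (2 : ℤ_[2]) ^ N ∣ z1' - z1 := by
    rw [hz1']; exact ⟨t, by ring⟩
  have hW0' : Word p.1.1 L z0 V := hW0.mono (le_max_left _ _)
  have hW1' : Word q.1.1 L z1' V :=
    (hW1.mono (le_max_right _ _)).shift ((pow_dvd_pow _ (le_max_left V K)).trans hd)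
  set u : Bool → ℕ → Bool := fun a => if a then p.1.1 else q.1.1 with hu
  set z : Bool → ℤ_[2] := fun a => if a then z0 else z1' with hz
  have hW : ∀ a, Word (u a) L (z a) V := by
    intro a; cases a
    · simpa [hu, hz] using hW1'
    · simpa [hu, hz] using hW0'
  have hVM : V ≤ M := (le_max_left V K).trans hN
  have hsep' : ∀ a b : Bool, ∀ i < L + V, ∀ i' < L + V,
    (2 : ℤ_[2]) ^ M ∣ (z a + i) - (z b + i') → a = b ∧ i = i' := hsep
  let pt : ℤ_[2] → XX := fun w => ⟨_, pt_mem u z L V M hW hVM hsep' w⟩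
  have hpt : ∀ w, pt w ∈ MY u z L M := by
    intro w n
    show decide (Y u z L M (w + n)) = true ↔ Y u z L M (w + n)
    simp
  have hptn : ∀ (a : Bool) (n : ℕ), n < L → (pt (z a)).1.1 n = u a n := by
    intro a n hn
    exact Bool.eq_iff_iff.2 ((hpt (z a) n).trans (Y_word u z L V M hW hVM hsep' a n hn))
  refine ⟨MY u z L M, MY_minimal u z L M ⟨_, hpt 0⟩, pt (z true), hpt _, ⟨?_, ?_⟩, ?_⟩
  · intro n hn
    rw [hptn true n hn]; simp [hu]
  · show (2 : ℤ_[2]) ^ K ∣ z true - p.1.2
    simpa [hz] using hz0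
  · obtain ⟨m, hm1, hm⟩ := exists_nat (max M K) (z false - z true)
    refine ⟨m, hm1, ?_⟩
    have hTm : T^[m] (pt (z true)) ∈ MY u z L M := iter_mem (MY_inv u z L M) (hpt _) m
    have hcl : Cl L K (T^[m] (pt (z true))) (pt (z false)) := by
      apply close_of_MY u z L M (hpt _) hTm
      rw [T_iter]
      show (2 : ℤ_[2]) ^ (max M K) ∣ z true + m - z false
      have e : z true + m - z false = -(z false - z true - m) := by ring
      rw [e]; exact dvd_neg.2 hm
    refine ⟨fun n hn => ?_, ?_⟩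
    · rw [hcl.1 n hn, hptn false n hn]; simp [hu]
    · have h3 : (2 : ℤ_[2]) ^ K ∣ z false - q.1.2 := by
        have e : z false - q.1.2 = (z1' - z1) + (z1 - q.1.2) := by
          simp only [hz, Bool.false_eq_true, if_false]; ring
        rw [e]
        exact dvd_add ((pow_dvd_pow _ (le_max_right V K)).trans hd) hz1
      have h4 := hcl.2
      have e : (T^[m] (pt (z true))).1.2 - q.1.2
          = ((T^[m] (pt (z true))).1.2 - (pt (z false)).1.2) + (z false - q.1.2) := by
        show _ = (_ - z false) + (z false - q.1.2)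
        ring
      rw [e]
      exact dvd_add h4 h3

end X109.LY
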