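import Mathlib

/-!
# A non-minimal M-system over the 2-adic odometer
-/

set_option autoImplicit false

open Filter Topology Set

namespace X109.LY

noncomputable local instance instBoolMetric : MetricSpace (ℕ → Bool) := PiNat.metricSpace

abbrev Sp : Type := (ℕ → Bool) × ℤ_[2]

theorem norm_le_iff (k : ℕ) (z : ℤ_[2]) : ‖z‖ ≤ (1 / 2 : ℝ) ^ k ↔ (2 : ℤ_[2]) ^ k ∣ z := by
  have h := PadicInt.norm_le_pow_iff_mem_span_pow (p := 2) z k
  rw [Ideal.mem_span_singleton] at h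
  rw [one_div, inv_pow, ← zpow_natCast, ← zpow_neg]
  exact_mod_cast h

theorem dvd_int_iff (k : ℕ) (a : ℤ) : (2 : ℤ_[2]) ^ k ∣ (a : ℤ_[2]) ↔ (2 : ℤ) ^ k ∣ a := by
  have h := PadicInt.pow_p_dvd_int_iff (p := 2) k a
  exact_mod_cast h

theorem isOpen_dvd (k : ℕ) : IsOpen {z : ℤ_[2] | (2 : ℤ_[2]) ^ k ∣ z} := by
  rw [Metric.isOpen_iff]
  intro z hz
  refine ⟨(1 / 2 : ℝ) ^ k, by positivity, fun w hw => ?_⟩
  have h1 : ‖w - z‖ ≤ (1 / 2 : ℝ) ^ k := by
    rw [Metric.mem_ball, dist_eq_norm] at hw; exact hw.le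
  have h2 := (norm_le_iff k _).1 h1
  have h3 : w = (w - z) + z := by ring
  show (2 : ℤ_[2]) ^ k ∣ w
  rw [h3]
  exact dvd_add h2 hz

theorem exists_not_dvd {z : ℤ_[2]} (hz : z ≠ 0) : ∃ V : ℕ, ¬ (2 : ℤ_[2]) ^ V ∣ z := by
  obtain ⟨V, hV⟩ := exists_pow_lt_of_lt_one (norm_pos_iff.2 hz) (show (1 / 2 : ℝ) < 1 by norm_num)
  exact ⟨V, fun h => absurd ((norm_le_iff V z).2 h) (not_le.2 hV)⟩

theorem eq_zero_of_dvd {z : ℤ_[2]} (h : ∀ k : ℕ, (2 : ℤ_[2]) ^ k ∣ z) : z = 0 := by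
  by_contra hz
  obtain ⟨V, hV⟩ := exists_not_dvd hz
  exact hV (h V)

theorem exists_nat (N : ℕ) (z : ℤ_[2]) : ∃ m : ℕ, 1 ≤ m ∧ (2 : ℤ_[2]) ^ N ∣ z - m := by
  have h := PadicInt.appr_spec N z
  rw [Ideal.mem_span_singleton] at h
  refine ⟨z.appr N + 2 ^ N, ?_, ?_⟩
  · have : 0 < 2 ^ N := by positivity
    omega
  · have h2 : (2 : ℤ_[2]) ^ N ∣ z - (z.appr N : ℤ_[2]) := by exact_mod_cast h
    push_cast
    have e : z - ((z.appr N : ℤ_[2]) + 2 ^ N) = (z - (z.appr N : ℤ_[2])) - 2 ^ N := by ring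
    rw [e]
    exact dvd_sub h2 dvd_rfl

/-- The phase space. -/
def XX : Set Sp := {p | ∀ n k j : ℕ, p.1 n = true → (2 : ℤ_[2]) ^ k ∣ p.2 + n → 1 ≤ j → j ≤ k →
  p.1 (n + j) = false}

theorem isClosed_XX : IsClosed XX := by
  have e : XX = ⋂ n : ℕ, ⋂ k : ℕ, ⋂ j : ℕ, {p : Sp | p.1 n = true → (2 : ℤ_[2]) ^ k ∣ p.2 + n →
      1 ≤ j → j ≤ k → p.1 (n + j) = false} := by
    ext p; simp only [XX, mem_ofPred_eq, mem_iInter]
  rw [e]
  refine isClosed_iInter fun n => isClosed_iInter fun k => isClosed_iInter fun j => ?_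
  by_cases hj : 1 ≤ j ∧ j ≤ k
  · rw [← isOpen_compl_iff]
    have e2 : {p : Sp | p.1 n = true → (2 : ℤ_[2]) ^ k ∣ p.2 + n →
        1 ≤ j → j ≤ k → p.1 (n + j) = false}ᶜ
        = ({p : Sp | p.1 n = true} ∩ {p : Sp | (2 : ℤ_[2]) ^ k ∣ p.2 + n}) ∩
          {p : Sp | p.1 (n + j) = true} := by
      ext p
      simp only [mem_compl_iff, mem_ofPred_eq, mem_inter_iff]
      constructor
      · intro h
        push Not at h
        obtain ⟨h1, h2, _, _, h5⟩ := h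
        exact ⟨⟨h1, h2⟩, by simpa using h5⟩
      · rintro ⟨⟨h1, h2⟩, h3⟩ h
        have := h h1 h2 hj.1 hj.2
        rw [this] at h3
        exact absurd h3 (by decide)
    rw [e2]
    have hc : ∀ m : ℕ, Continuous (fun p : Sp => p.1 m) := fun m =>
      (continuous_apply m).comp continuous_fst
    refine IsOpen.inter (IsOpen.inter ?_ ?_) ?_
    · exact (isOpen_discrete ({true} : Set Bool)).preimage (hc n)
    · exact (isOpen_dvd k).preimage (continuous_snd.add continuous_const)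
    · exact (isOpen_discrete ({true} : Set Bool)).preimage (hc (n + j))
  · have : {p : Sp | p.1 n = true → (2 : ℤ_[2]) ^ k ∣ p.2 + n →
        1 ≤ j → j ≤ k → p.1 (n + j) = false} = univ := by
      ext p
      simp only [mem_ofPred_eq, mem_univ, iff_true]
      intro _ _ h3 h4
      exact absurd ⟨h3, h4⟩ hj
    rw [this]
    exact isClosed_univ

instance instCompactXX : CompactSpace XX := isCompact_iff_compactSpace.1 isClosed_XX.isCompact

theorem T_mem (p : XX) : ((fun n => p.1.1 (n + 1), p.1.2 + 1) : Sp) ∈ XX := by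
  intro n k j h1 h2 h3 h4
  have e : p.1.2 + ((n + 1 : ℕ) : ℤ_[2]) = p.1.2 + 1 + n := by push_cast; ring
  have h5 := p.2 (n + 1) k j h1 (e ▸ h2) h3 h4
  show p.1.1 (n + j + 1) = false
  rw [show n + j + 1 = n + 1 + j by ring]; exact h5

/-- The map. -/
noncomputable def T (p : XX) : XX := ⟨(fun n => p.1.1 (n + 1), p.1.2 + 1), T_mem p⟩

theorem T_iter (m : ℕ) (p : XX) : (T^[m] p).1 = (fun n => p.1.1 (n + m), p.1.2 + m) := by
  induction m with
  | zero => simp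
  | succ m ih =>
    rw [Function.iterate_succ_apply']
    show ((fun n => (T^[m] p).1.1 (n + 1), (T^[m] p).1.2 + 1) : Sp) = _
    rw [ih]
    refine Prod.ext ?_ ?_
    · funext n
      show p.1.1 (n + 1 + m) = p.1.1 (n + (m + 1))
      rw [show n + 1 + m = n + (m + 1) by ring]
    · show p.1.2 + m + 1 = p.1.2 + ((m + 1 : ℕ) : ℤ_[2])
      push_cast; ring

theorem continuous_T : Continuous T := by
  refine Continuous.subtype_mk (Continuous.prodMk ?_ ?_) _
  · exact continuous_pi fun n =>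
      (continuous_apply (n + 1)).comp (continuous_fst.comp continuous_subtype_val)
  · exact (continuous_snd.comp continuous_subtype_val).add continuous_const

theorem surjective_T : Function.Surjective T := by
  intro p
  refine ⟨⟨(fun n => if n = 0 then false else p.1.1 (n - 1), p.1.2 - 1), ?_⟩, ?_⟩
  · intro n k j h1 h2 h3 h4
    show (if n + j = 0 then false else p.1.1 (n + j - 1)) = false
    have h1' : (if n = 0 then false else p.1.1 (n - 1)) = true := h1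
    rcases Nat.eq_zero_or_pos n with hn | hn
    · rw [if_pos hn] at h1'; exact absurd h1' (by decide)
    · rw [if_neg (by omega)] at h1'
      rw [if_neg (by omega)]
      have h5 := p.2 (n - 1) k j h1' (by
        have e : p.1.2 + ((n - 1 : ℕ) : ℤ_[2]) = p.1.2 - 1 + n := by
          rw [Nat.cast_sub (by omega)]; push_cast; ring
        rw [e]; exact h2) h3 h4
      rw [show n + j - 1 = n - 1 + j by omega]; exact h5
  · apply Subtype.ext
    refine Prod.ext ?_ ?_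
    · funext n
      show (if n + 1 = 0 then false else p.1.1 (n + 1 - 1)) = p.1.1 n
      simp
    · show p.1.2 - 1 + 1 = p.1.2
      ring

/-- Closeness of points. -/
def Cl (L K : ℕ) (q p : XX) : Prop :=
  (∀ n < L, q.1.1 n = p.1.1 n) ∧ (2 : ℤ_[2]) ^ K ∣ q.1.2 - p.1.2

theorem nbhd (p : XX) (U : Set XX) (hU : U ∈ 𝓝 p) : ∃ L K : ℕ, ∀ q : XX, Cl L K q p → q ∈ U := by
  obtain ⟨ε, hε, hb⟩ := Metric.mem_nhds_iff.1 hU
  obtain ⟨N, hN⟩ := exists_pow_lt_of_lt_one hε (show (1 / 2 : ℝ) < 1 by norm_num)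
  refine ⟨N, N, fun q hq => hb ?_⟩
  rw [Metric.mem_ball]
  have h1 : dist q.1.1 p.1.1 ≤ (1 / 2 : ℝ) ^ N :=
    PiNat.mem_cylinder_iff_dist_le.1 (PiNat.mem_cylinder_iff.2 hq.1)
  have h2 : dist q.1.2 p.1.2 ≤ (1 / 2 : ℝ) ^ N := by
    rw [dist_eq_norm]; exact (norm_le_iff N _).2 hq.2
  have h3 : dist q p = max (dist q.1.1 p.1.1) (dist q.1.2 p.1.2) := rfl
  rw [h3]
  exact lt_of_le_of_lt (max_le h1 h2) hN

theorem nbhd_mem (p : XX) (L K : ℕ) : {q : XX | Cl L K q p} ∈ 𝓝 p := by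
  rw [Metric.mem_nhds_iff]
  refine ⟨min ((1 / 2 : ℝ) ^ L) ((1 / 2 : ℝ) ^ K), by positivity, fun q hq => ?_⟩
  rw [Metric.mem_ball] at hq
  have h3 : dist q p = max (dist q.1.1 p.1.1) (dist q.1.2 p.1.2) := rfl
  rw [h3, lt_min_iff, max_lt_iff, max_lt_iff] at hq
  obtain ⟨⟨h1, _⟩, ⟨_, h2⟩⟩ := hq
  refine ⟨fun n hn => PiNat.apply_eq_of_dist_lt h1 hn.le, ?_⟩
  rw [dist_eq_norm] at h2
  exact (norm_le_iff K _).1 h2.le

end X109.LY
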