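import Pool.Agent.X109.LY.Sys

/-!
# Words and periodic patterns
-/

set_option autoImplicit false

open Filter Topology Set

namespace X109.LY

noncomputable local instance instBoolMetric' : MetricSpace (ℕ → Bool) := PiNat.metricSpace

/-- The word `u[0,L)` at phase `z` has all its demands below `V`, and they are met inside. -/
def Word (u : ℕ → Bool) (L : ℕ) (z : ℤ_[2]) (V : ℕ) : Prop :=
  ∀ i < L, u i = true → ∀ k : ℕ, (2 : ℤ_[2]) ^ k ∣ z + i → k < V ∧
    ∀ j, 1 ≤ j → j ≤ k → i + j < L → u (i + j) = false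

theorem Word.mono {u : ℕ → Bool} {L V V' : ℕ} {z : ℤ_[2]} (h : Word u L z V) (hV : V ≤ V') :
    Word u L z V' := fun i hi hu k hk =>
  ⟨lt_of_lt_of_le (h i hi hu k hk).1 hV, (h i hi hu k hk).2⟩

theorem Word.shift {u : ℕ → Bool} {L V : ℕ} {z z' : ℤ_[2]} (h : Word u L z V)
    (hz : (2 : ℤ_[2]) ^ V ∣ z' - z) : Word u L z' V := by
  intro i hi hu k hk
  have hkV : k < V := by
    by_contra hcon
    push Not at hcon
    have h1 : (2 : ℤ_[2]) ^ V ∣ z' + i := (pow_dvd_pow _ hcon).trans hk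
    have h2 : (2 : ℤ_[2]) ^ V ∣ z + i := by
      have e : z + i = (z' + i) - (z' - z) := by ring
      rw [e]; exact dvd_sub h1 hz
    exact lt_irrefl _ (h i hi hu V h2).1
  have h3 : (2 : ℤ_[2]) ^ k ∣ z + i := by
    have e : z + i = (z' + i) - (z' - z) := by ring
    rw [e]; exact dvd_sub hk ((pow_dvd_pow _ hkV.le).trans hz)
  exact h i hi hu k h3

theorem exists_word (p : XX) (L K : ℕ) : ∃ (z : ℤ_[2]) (V : ℕ), (2 : ℤ_[2]) ^ K ∣ z - p.1.2 ∧
    Word p.1.1 L z V := by
  by_cases hcase : ∀ n < L, p.1.2 + n ≠ 0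
  · have h1 : ∀ n : ℕ, ∃ V : ℕ, n < L → ¬ (2 : ℤ_[2]) ^ V ∣ p.1.2 + n := by
      intro n
      by_cases hn : n < L
      · obtain ⟨V, hV⟩ := exists_not_dvd (hcase n hn)
        exact ⟨V, fun _ => hV⟩
      · exact ⟨0, fun h => absurd h hn⟩
    choose W hW using h1
    refine ⟨p.1.2, ∑ n ∈ Finset.range L, W n, by simp, ?_⟩
    intro i hi hu k hk
    refine ⟨?_, fun j h1 h2 _ => p.2 i k j hu hk h1 h2⟩
    by_contra hcon
    push Not at hcon
    have h2 : W i ≤ ∑ n ∈ Finset.range L, W n :=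
      Finset.single_le_sum (fun _ _ => Nat.zero_le _) (Finset.mem_range.2 hi)
    exact hW i hi ((pow_dvd_pow _ (h2.trans hcon)).trans hk)
  · push Not at hcase
    obtain ⟨n0, hn0, hz0⟩ := hcase
    set K' := max K L with hK'
    have hL : L < 2 ^ K' := lt_of_lt_of_le (Nat.lt_two_pow_self) (Nat.pow_le_pow_right (by norm_num)
      (le_max_right K L))
    refine ⟨p.1.2 + 2 ^ K', K' + 1, ?_, ?_⟩
    · have e : p.1.2 + 2 ^ K' - p.1.2 = (2 : ℤ_[2]) ^ K' := by ring
      rw [e]; exact pow_dvd_pow _ (le_max_left K L)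
    · intro i hi hu k hk
      have e1 : p.1.2 + 2 ^ K' + i = (((i : ℤ) - n0 + 2 ^ K' : ℤ) : ℤ_[2]) := by
        push_cast
        linear_combination hz0
      have hkV : k < K' + 1 := by
        by_contra hcon
        push Not at hcon
        have h2 : (2 : ℤ_[2]) ^ (K' + 1) ∣ (((i : ℤ) - n0 + 2 ^ K' : ℤ) : ℤ_[2]) := by
          rw [← e1]; exact (pow_dvd_pow _ hcon).trans hk
        rw [dvd_int_iff] at h2
        have hLz : (L : ℤ) < 2 ^ K' := by exact_mod_cast hL
        have h3 : (0 : ℤ) < (i : ℤ) - n0 + 2 ^ K' := by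
          have : (n0 : ℤ) < L := by exact_mod_cast hn0
          have : (0 : ℤ) ≤ i := by positivity
          linarith
        have h4 := Int.le_of_dvd h3 h2
        rw [pow_succ] at h4
        have : (i : ℤ) < L := by exact_mod_cast hi
        have : (0 : ℤ) ≤ n0 := by positivity
        linarith
      refine ⟨hkV, fun j h1 h2 _ => p.2 i k j hu ?_ h1 h2⟩
      have e2 : p.1.2 + i = (p.1.2 + 2 ^ K' + i) - 2 ^ K' := by ring
      rw [e2]
      exact dvd_sub hk (pow_dvd_pow _ (by omega))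

/-- The pattern made of the words `u a` at phases `z a`, repeated with period `2^M`. -/
def Y (u : Bool → ℕ → Bool) (z : Bool → ℤ_[2]) (L M : ℕ) (w : ℤ_[2]) : Prop :=
  ∃ (a : Bool) (i : ℕ), i < L ∧ u a i = true ∧ (2 : ℤ_[2]) ^ M ∣ w - (z a + i)

section pattern

variable (u : Bool → ℕ → Bool) (z : Bool → ℤ_[2]) (L V M : ℕ)

theorem Y_congr {w w' : ℤ_[2]} (h : (2 : ℤ_[2]) ^ M ∣ w - w') : Y u z L M w ↔ Y u z L M w' := by
  have key : ∀ w w' : ℤ_[2], (2 : ℤ_[2]) ^ M ∣ w - w' → Y u z L M w' → Y u z L M w := by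
    rintro w w' h ⟨a, i, h1, h2, h3⟩
    refine ⟨a, i, h1, h2, ?_⟩
    have e : w - (z a + i) = (w - w') + (w' - (z a + i)) := by ring
    rw [e]; exact dvd_add h h3
  refine ⟨key w' w ?_, key w w' h⟩
  have e : w' - w = -(w - w') := by ring
  rw [e]; exact (dvd_neg).2 h

variable (hW : ∀ a, Word (u a) L (z a) V) (hVM : V ≤ M)
  (hsep : ∀ a b : Bool, ∀ i < L + V, ∀ i' < L + V,
    (2 : ℤ_[2]) ^ M ∣ (z a + i) - (z b + i') → a = b ∧ i = i')

include hW hVM hsep

open Classical in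
theorem pt_mem (w : ℤ_[2]) : ((fun n : ℕ => decide (Y u z L M (w + n)), w) : Sp) ∈ XX := by
  intro n k j h1 h2 h3 h4
  have h1' : Y u z L M (w + n) := by simpa using h1
  obtain ⟨a, i, hi, hu, hd⟩ := h1'
  have h2' : (2 : ℤ_[2]) ^ k ∣ w + n := h2
  have hkV : k < V := by
    by_contra hcon
    push Not at hcon
    have h5 : (2 : ℤ_[2]) ^ V ∣ z a + i := by
      have e : z a + i = (w + n) - (w + n - (z a + i)) := by ring
      rw [e]
      exact dvd_sub ((pow_dvd_pow _ hcon).trans h2') ((pow_dvd_pow _ hVM).trans hd)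
    exact lt_irrefl _ (hW a i hi hu V h5).1
  have h6 : (2 : ℤ_[2]) ^ k ∣ z a + i := by
    have e : z a + i = (w + n) - (w + n - (z a + i)) := by ring
    rw [e]
    exact dvd_sub h2' ((pow_dvd_pow _ (hkV.le.trans hVM)).trans hd)
  show decide (Y u z L M (w + ((n + j : ℕ) : ℤ_[2]))) = false
  rw [decide_eq_false_iff_not]
  rintro ⟨b, i', hi', hu', hd'⟩
  have h7 : (2 : ℤ_[2]) ^ M ∣ (z a + ((i + j : ℕ) : ℤ_[2])) - (z b + i') := by
    have e : (z a + ((i + j : ℕ) : ℤ_[2])) - (z b + i')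
        = (w + ((n + j : ℕ) : ℤ_[2]) - (z b + i')) - (w + n - (z a + i)) := by
      push_cast; ring
    rw [e]; exact dvd_sub hd' hd
  obtain ⟨hab, hij⟩ := hsep a b (i + j) (by omega) i' (by omega) h7
  subst hab
  have h8 := (hW a i hi hu k h6).2 j h3 h4 (by omega)
  rw [hij] at h8
  rw [h8] at hu'
  exact absurd hu' (by decide)

theorem Y_word (a : Bool) (n : ℕ) (hn : n < L) : Y u z L M (z a + n) ↔ u a n = true := by
  constructor
  · rintro ⟨b, i', hi', hu', hd'⟩
    obtain ⟨hab, hij⟩ := hsep a b n (by omega) i' (by omega) hd'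
    subst hab; subst hij
    exact hu'
  · intro h
    exact ⟨a, n, hn, h, by simp⟩

end pattern

/-- Existence of separated phases. -/
theorem exists_sep (z0 z1 : ℤ_[2]) (R N : ℕ) : ∃ (t M : ℕ), R ≤ M ∧ N ≤ M ∧
    ∀ a b : Bool, ∀ i < R, ∀ i' < R,
      (2 : ℤ_[2]) ^ M ∣ ((if a then z0 else z1 + 2 ^ N * t) + i)
        - ((if b then z0 else z1 + 2 ^ N * t) + i') → a = b ∧ i = i' := by
  -- choose t with z0 + i ≠ z1 + 2^N t + i'
  obtain ⟨t, ht⟩ : ∃ t : ℕ, ∀ i < R, ∀ i' < R, z0 + (i : ℤ_[2]) - (z1 + 2 ^ N * t + i') ≠ 0 := by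
    by_contra hcon
    push Not at hcon
    set F : Set ℤ_[2] := (fun q : ℕ × ℕ => z0 + (q.1 : ℤ_[2]) - z1 - q.2) ''
      ((Finset.range R ×ˢ Finset.range R : Finset (ℕ × ℕ)) : Set (ℕ × ℕ)) with hF
    have hfin : F.Finite := (Finset.finite_toSet _).image _
    have hinj : Function.Injective (fun t : ℕ => (2 : ℤ_[2]) ^ N * (t : ℤ_[2])) := by
      intro t t' h
      have h2 : (2 : ℤ_[2]) ^ N ≠ 0 := pow_ne_zero _ (by norm_num)
      have h3 := mul_left_cancel₀ h2 h
      exact_mod_cast h3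
    refine Set.infinite_of_injective_forall_mem hinj (s := F) (fun t => ?_) hfin
    obtain ⟨i, hi, i', hi', h⟩ := hcon t
    refine ⟨(i, i'), by simp [hi, hi'], ?_⟩
    show z0 + (i : ℤ_[2]) - z1 - i' = 2 ^ N * t
    linear_combination h
  have h1 : ∀ i i' : ℕ, ∃ e : ℕ, i < R → i' < R →
      ¬ (2 : ℤ_[2]) ^ e ∣ z0 + (i : ℤ_[2]) - (z1 + 2 ^ N * t + i') := by
    intro i i'
    by_cases h : i < R ∧ i' < R
    · obtain ⟨e, he⟩ := exists_not_dvd (ht i h.1 i' h.2)
      exact ⟨e, fun _ _ => he⟩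
    · exact ⟨0, fun h2 h3 => absurd ⟨h2, h3⟩ h⟩
  choose e he using h1
  set S := ∑ i ∈ Finset.range R, ∑ i' ∈ Finset.range R, e i i' with hS
  have hle : ∀ i < R, ∀ i' < R, e i i' ≤ S := by
    intro i hi i' hi'
    calc e i i' ≤ ∑ i' ∈ Finset.range R, e i i' :=
          Finset.single_le_sum (f := fun i' => e i i') (fun _ _ => Nat.zero_le _)
            (Finset.mem_range.2 hi')
      _ ≤ S := Finset.single_le_sum (f := fun i => ∑ i' ∈ Finset.range R, e i i')
          (fun _ _ => Nat.zero_le _) (Finset.mem_range.2 hi)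
  refine ⟨t, R + N + S, by omega, by omega, ?_⟩
  have hsame : ∀ (c : ℤ_[2]) (i i' : ℕ), i < R → i' < R →
      (2 : ℤ_[2]) ^ (R + N + S) ∣ (c + i) - (c + i') → i = i' := by
    intro c i i' hi hi' h
    have e1 : (c + i) - (c + i') = (((i : ℤ) - i' : ℤ) : ℤ_[2]) := by push_cast; ring
    rw [e1, dvd_int_iff] at h
    have hR : (R : ℤ) < 2 ^ (R + N + S) := by
      have : R < 2 ^ (R + N + S) := lt_of_lt_of_le Nat.lt_two_pow_self
        (Nat.pow_le_pow_right (by norm_num) (by omega))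
      exact_mod_cast this
    have h5 : |(i : ℤ) - i'| < 2 ^ (R + N + S) := by
      rw [abs_lt]
      have : (i : ℤ) < R := by exact_mod_cast hi
      have : (i' : ℤ) < R := by exact_mod_cast hi'
      have : (0 : ℤ) ≤ i := by positivity
      have : (0 : ℤ) ≤ i' := by positivity
      constructor <;> linarith
    have h6 := Int.eq_zero_of_abs_lt_dvd h h5
    omega
  intro a b i hi i' hi' h
  cases a <;> cases b
  · refine ⟨rfl, hsame (z1 + 2 ^ N * t) i i' hi hi' ?_⟩
    simp only [Bool.false_eq_true, if_false] at h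
    exact h
  · exfalso
    simp only [Bool.false_eq_true, if_false, if_true] at h
    apply he i' i hi' hi
    have e1 : z0 + (i' : ℤ_[2]) - (z1 + 2 ^ N * t + i)
        = -(z1 + 2 ^ N * t + i - (z0 + i')) := by ring
    rw [e1, dvd_neg]
    exact (pow_dvd_pow _ ((hle i' hi' i hi).trans (by omega))).trans h
  · exfalso
    simp only [Bool.false_eq_true, if_false, if_true] at h
    apply he i i' hi hi'
    exact (pow_dvd_pow _ ((hle i hi i' hi').trans (by omega))).trans h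
  · refine ⟨rfl, hsame z0 i i' hi hi' ?_⟩
    simp only [if_true] at h
    exact h

end X109.LY
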